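import Pool.Agent.H.MP_cba12a_lc.X10.RepD

/-!
Large samples are representative for the events of the learner.
-/

namespace Pool.Agent.H.MP_cba12a_lc

open Finset

variable {n m : ℕ}

theorem ev10_iff {f : (Fin n → Bool) → Bool} {v u : Bool} {R Z : List Lit}
    {h : List (List Lit)} {x : Fin n → Bool} : ev10 f v u R Z h x = true ↔
      f x = v ∧ par (List.ofFn x) R = u ∧ sat (List.ofFn x) Z = true ∧
        satD (List.ofFn x) h = false := by
  unfold ev10
  simp

theorem cnt10_smp (f : (Fin n → Bool) → Bool) (ω : Fin m → Fin n → Bool) (v u : Bool)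
    (R Z : List Lit) (h : List (List Lit)) :
    cnt10 (smp f ω) v u R Z h = ec ω (ev10 f v u R Z h) := by
  unfold cnt10 smp
  rw [length_filter_ofFn]
  rfl

/-- with the empty parity set, `ev10` is `ev` -/
theorem ev10_nil (f : (Fin n → Bool) → Bool) (v : Bool) (Z : List Lit) (h : List (List Lit)) :
    ev10 f v false [] Z h = ev f v Z h := by
  funext x
  rw [Bool.eq_iff_iff, ev10_iff, ev_iff, par_nil]
  tauto

/-- event of an index -/
def evK {r : ℕ} (f : (Fin n → Bool) → Bool) (i : Ix n r × Finset (Fin n × Bool) × Bool)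
    (x : Fin n → Bool) : Bool :=
  evI f i.1 x && (decide (nf i.2.1 x % 2 = 1) == i.2.2)

theorem ev10_eq_evK {r : ℕ} (f : (Fin n → Bool) → Bool) (v u : Bool) {R Z : List Lit}
    {h : List (List Lit)} (hnd : R.Nodup) (hn : ∀ l ∈ R, l.1 < n) (hZ : ∀ l ∈ Z, l.1 < n)
    (hr : h.length ≤ r) (hh : ∀ D ∈ h, ∀ l ∈ D, l.1 < n) :
    ev10 f v u R Z h = evK f ((v, toF n Z, fun j : Fin r => (h[(j : ℕ)]?).map (toF n)),
      toF n R, u) := by
  funext x
  unfold evK
  rw [← ev_eq_evI f v Z h hZ hr hh, ← par_eq_nf x R hnd hn]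
  unfold ev10 ev
  generalize (f x == v) = a
  generalize (par (List.ofFn x) R == u) = b
  generalize (sat (List.ofFn x) Z && !satD (List.ofFn x) h) = c
  cases a <;> cases b <;> cases c <;> rfl

theorem mu_ev10_sub_le (f g : (Fin n → Bool) → Bool) (v u : Bool) (R Z : List Lit)
    (h : List (List Lit)) : mu (ev10 f v u R Z h) ≤ mu (ev10 g v u R Z h) + dst f g := by
  have e : dst f g = mu (fun x => !(f x == g x)) := by
    unfold dst mu ct
    rw [Fintype.card_fun, Fintype.card_fin, Fintype.card_bool]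
    push_cast
    congr 2
    refine congrArg card ?_
    ext x
    simp
  rw [e]
  refine mu_le_add ?_
  intro x hx
  rw [ev10_iff] at hx
  by_cases hfg : f x = g x
  · left
    rw [ev10_iff, ← hfg]
    exact hx
  · right
    simp [hfg]

/-- Most samples are representative. -/
theorem rep10_of_large (f g : (Fin n → Bool) → Bool) (r b : ℕ) (hb : 0 < b)
    (τ : ℝ) (hτ : 0 < τ) (hτ1 : τ ≤ 1) (hfg : dst f g ≤ τ)
    (hm : (4 : ℝ) * ((2 * n + 1) * (r + 2) + 1 + Nat.clog 2 b) ≤ m * τ ^ 2)
    (P : (Fin m → Fin n → Bool) → Prop) [DecidablePred P]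
    (hP : ∀ ω, Rep10 f g ω r (2 * τ) → P ω) :
    (1 - 1 / (b : ℝ)) * ((2 : ℝ) ^ n) ^ m ≤
      ((univ.filter fun ω : Fin m → Fin n → Bool => P ω).card : ℝ) := by
  classical
  have hcard : Fintype.card (Ix n r × Finset (Fin n × Bool) × Bool) ≤
      2 ^ ((2 * n + 1) * (r + 2)) := by
    rw [Fintype.card_prod]
    have h0 : Fintype.card (Finset (Fin n × Bool) × Bool) = 2 ^ (2 * n + 1) := by
      rw [Fintype.card_prod, Fintype.card_finset, Fintype.card_prod, Fintype.card_bool,
        Fintype.card_fin, pow_succ, mul_comm n 2]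
    rw [h0]
    calc Fintype.card (Ix n r) * 2 ^ (2 * n + 1) ≤
        2 ^ ((2 * n + 1) * (r + 1)) * 2 ^ (2 * n + 1) := Nat.mul_le_mul_right _ (card_Ix n r)
      _ = 2 ^ ((2 * n + 1) * (r + 2)) := by
        rw [← pow_add]
        congr 1
  have h := uniform_conv (Ω := Fin n → Bool) (ι := Ix n r × Finset (Fin n × Bool) × Bool)
    (evK f) (m := m) (D := (2 * n + 1) * (r + 2)) hb (by simp) hcard τ hτ hτ1 (by
      push_cast
      linarith)
  rw [Fintype.card_fun, Fintype.card_fin, Fintype.card_bool] at h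
  push_cast at h
  refine h.trans ?_
  have hsub : (univ.filter fun ω : Fin m → Fin n → Bool =>
      ∀ i : Ix n r × Finset (Fin n × Bool) × Bool, |em ω (evK f i) - mu (evK f i)| < τ) ⊆
      (univ.filter fun ω : Fin m → Fin n → Bool => P ω) := by
    intro ω hω
    rw [mem_filter] at hω ⊢
    refine ⟨mem_univ _, hP ω ?_⟩
    intro v u R Z h hnd hn hZ hr hh
    have h1 := abs_lt.1 (hω.2 ((v, toF n Z, fun j : Fin r => (h[(j : ℕ)]?).map (toF n)),
      toF n R, u))
    rw [← ev10_eq_evK f v u (List.Nodup.of_map _ hnd) hn hZ hr hh] at h1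
    have h2 := mu_ev10_sub_le f g v u R Z h
    have h3 := mu_ev10_sub_le g f v u R Z h
    rw [dst_comm g f] at h3
    rw [abs_le]
    constructor <;> linarith
  exact_mod_cast card_le_card hsub

/-- in particular for the events without parity -/
theorem Rep10.ev {f g : (Fin n → Bool) → Bool} {ω : Fin m → Fin n → Bool} {r : ℕ} {η : ℝ}
    (h : Rep10 f g ω r η) (v : Bool) (Z : List Lit) (H : List (List Lit))
    (hZ : ∀ l ∈ Z, l.1 < n) (hr : H.length ≤ r) (hh : ∀ D ∈ H, ∀ l ∈ D, l.1 < n) :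
    |em ω (ev f v Z H) - mu (ev g v Z H)| ≤ η := by
  have h1 := h v false [] Z H (by simp) (by simp) hZ hr hh
  rwa [ev10_nil, ev10_nil] at h1

end Pool.Agent.H.MP_cba12a_lc
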