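import Pool.Agent.H.MP_cba12a_lc.P9.Poly10
import Pool.Agent.H.MP_cba12a_lc.P9.RepL

/-!
The parameter `L` of the polynomial-time learners, and powers `2 ^ (k * L)`.
-/

namespace Pool.Agent.H.MP_cba12a_lc

open Pool.Agent.H.MP_5be563_lc.PT

@[fun_prop]
theorem poly_pow10 {α : Type} [Enc α] {f : α → ℕ} (hf : Poly f) (k : ℕ) :
    Poly (fun a => f a ^ k) := by
  induction k with
  | zero =>
    simp only [pow_zero]
    fun_prop
  | succ k ih =>
    simp only [pow_succ]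
    fun_prop

@[fun_prop]
theorem poly_two_pow_clog {α : Type} [Enc α] {s : α → ℕ} (hs : Poly s) :
    Poly (fun a => 2 ^ Nat.clog 2 (s a)) := by
  have h : Poly (fun a => (lgStep (s a))^[s a] (0, 1)) := by
    refine Poly.iterate (f := fun a q => lgStep (s a) q) (s := fun _ => (0, 1))
      (n := s) (B := fun a => 4 * sz (s a) + 20) ?_ (by fun_prop) hs ?_ ?_
    · unfold lgStep
      fun_prop
    · exact ((PBdd.const 4).mul hs.sz_le).add (PBdd.const 20)
    · intro a j hj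
      have h := lg_bd (s a) j
      have e : (fun q => lgStep (s a) q) = lgStep (s a) := rfl
      rw [sz_prod, e]
      simp only [sz_nat]
      omega
  have h2 : Poly (fun a => ((lgStep (s a))^[s a] (0, 1)).2) := by fun_prop
  refine (show (fun a => 2 ^ Nat.clog 2 (s a)) = _ from ?_) ▸ h2
  funext a
  rw [lgStep_iterate]
  simp only
  have := clog_le_self (s a)
  congr 1
  omega

/-- the parameter of the learner -/
def LL (c0 n a : ℕ) : ℕ := Nat.clog 2 (n + 1) + Nat.clog 2 a + (c0 + 1)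

theorem two_pow_LL (c0 n a k : ℕ) : 2 ^ (k * LL c0 n a) =
    (2 ^ Nat.clog 2 (n + 1) * 2 ^ Nat.clog 2 a * 2 ^ (c0 + 1)) ^ k := by
  unfold LL
  rw [← pow_add, ← pow_add, ← pow_mul, mul_comm]

@[fun_prop]
theorem poly_two_pow_LL {α : Type} [Enc α] {n a : α → ℕ} (c0 k : ℕ) (hn : Poly n)
    (ha : Poly a) : Poly (fun q => 2 ^ (k * LL c0 (n q) (a q))) := by
  have h : (fun q => 2 ^ (k * LL c0 (n q) (a q))) = fun q =>
      (2 ^ Nat.clog 2 (n q + 1) * 2 ^ Nat.clog 2 (a q) * 2 ^ (c0 + 1)) ^ k := by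
    funext q
    exact two_pow_LL c0 (n q) (a q) k
  rw [h]
  fun_prop

@[fun_prop]
theorem poly_LL {α : Type} [Enc α] {n a : α → ℕ} (c0 : ℕ) (hn : Poly n)
    (ha : Poly a) : Poly (fun q => LL c0 (n q) (a q)) := by
  unfold LL
  fun_prop

/-- the bound `2 ^ L` -/
def W10 (c0 n a : ℕ) : ℕ := 2 ^ (c0 + 3) * (n + 1) * a

theorem two_pow_LL_le (c0 n a : ℕ) (ha : 1 ≤ a) : 2 ^ LL c0 n a ≤ W10 c0 n a := by
  have h := two_pow_LL c0 n a 1
  rw [one_mul, pow_one] at h
  rw [h]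
  unfold W10
  have h1 := two_pow_clog_le (n + 1) (by omega)
  have h2 := two_pow_clog_le a ha
  calc 2 ^ Nat.clog 2 (n + 1) * 2 ^ Nat.clog 2 a * 2 ^ (c0 + 1) ≤
      (2 * (n + 1)) * (2 * a) * 2 ^ (c0 + 1) :=
        Nat.mul_le_mul_right _ (Nat.mul_le_mul h1 h2)
    _ = 2 ^ (c0 + 3) * (n + 1) * a := by
        rw [pow_add 2 c0 3, pow_add 2 c0 1]
        ring

open Polynomial in
/-- the polynomial for `W10` -/
noncomputable def WP10 (c0 : ℕ) : Polynomial ℕ := 2 ^ (c0 + 3) * (X + 1) * X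

theorem eval_WP10 (c0 x : ℕ) : (WP10 c0).eval x = W10 c0 x x := by
  unfold WP10 W10
  simp

theorem W10_mono {c0 n a n' a' : ℕ} (hn : n ≤ n') (ha : a ≤ a') : W10 c0 n a ≤ W10 c0 n' a' := by
  unfold W10
  exact Nat.mul_le_mul (Nat.mul_le_mul_left _ (by omega)) ha

theorem mu_errE_eq10 {n : ℕ} (f : (Fin n → Bool) → Bool) (H : List (List Lit)) :
    mu (errE f H) = err f H := by
  unfold mu err ct
  rw [Fintype.card_fun, Fintype.card_fin, Fintype.card_bool]
  push_cast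
  congr 2
  refine congrArg Finset.card ?_
  ext x
  simp only [Finset.mem_filter, Finset.mem_univ, true_and, errE_iff]
  exact ne_comm

/-- the bound is not much larger than `2 ^ L` -/
theorem W10_le (c0 n a : ℕ) : W10 c0 n a ≤ 2 ^ (LL c0 n a + 2) := by
  have h1 : n + 1 ≤ 2 ^ Nat.clog 2 (n + 1) := Nat.le_pow_clog (by norm_num) _
  have h2 : a ≤ 2 ^ Nat.clog 2 a := Nat.le_pow_clog (by norm_num) _
  unfold W10 LL
  calc 2 ^ (c0 + 3) * (n + 1) * a ≤ 2 ^ (c0 + 3) * 2 ^ Nat.clog 2 (n + 1) *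
      2 ^ Nat.clog 2 a := Nat.mul_le_mul (Nat.mul_le_mul_left _ h1) h2
    _ = 2 ^ (Nat.clog 2 (n + 1) + Nat.clog 2 a + (c0 + 1) + 2) := by
      rw [← pow_add, ← pow_add]
      congr 1
      ring

end Pool.Agent.H.MP_cba12a_lc
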