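import Pool.Agent.H.MP_cba12a_lc.P9.RepL
import Pool.Agent.H.MP_cba12a_lc.Final8

/-!
The orientation of the influential variables on a representative sample.
-/

namespace Pool.Agent.H.MP_cba12a_lc

open Finset

variable {n m : ℕ}

theorem Rep10.toRep {f g : (Fin n → Bool) → Bool} {ω : Fin m → Fin n → Bool} {r : ℕ}
    {η τ : ℝ} (h : Rep10 f g ω r η) (hfg : dst f g ≤ η) (hτ : 2 * η < τ) : Rep f ω r τ := by
  intro v C H hC hr hh
  have h1 := abs_le.1 (h.ev v C H hC hr hh)
  have h2 := mu_ev_sub_le f g v C H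
  have h3 := mu_ev_sub_le g f v C H
  rw [dst_comm g f] at h3
  rw [abs_lt]
  constructor <;> linarith

theorem piv_le_cI {o : Fin n → Bool} {g : (Fin n → Bool) → Bool} (hg : Up o g) (i : Fin n) :
    pr (fun x => g x = true ∧ g (flp i x) = false) ≤ |cI g i| / 2 ^ n := by
  rw [← co_single hg i]
  refine le_trans (pr_mono ?_) (piv_le_co hg i)
  intro x hx
  refine ⟨?_, hx⟩
  by_contra hne
  have h1 : x i = !(o i) := by
    cases hxi : x i <;> cases hoi : o i <;> simp_all
  have h2 : Function.update x i (!(o i)) = x := by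
    rw [← h1, Function.update_eq_self]
  have h3 : flp i x = Function.update x i (o i) := by
    unfold flp
    rw [h1, Bool.not_not]
  have h4 := hg i x
  rw [h2] at h4
  have h5 := h4 hx.1
  rw [← h3, hx.2] at h5
  exact absurd h5 (by simp)

/-- the orientation found by the learner -/
theorem ori10 {Θ : ℕ} {f g : (Fin n → Bool) → Bool} {o : Fin n → Bool}
    {ω : Fin m → Fin n → Bool} {r : ℕ} {η : ℝ} (hm : 0 < m) (hΘ : 0 < Θ) (hg : Up o g)
    (hrep : Rep10 f g ω r η) (hfg : dst f g ≤ η) (hη : 2 * η < 1 / (16 * Θ)) :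
    Ori o (orient n Θ (smp f ω)) ∧ (orient n Θ (smp f ω)).Nodup ∧
      ∀ i : Fin n, ((i : ℕ), o i) ∉ orient n Θ (smp f ω) →
        pr (fun x => g x = true ∧ g (flp i x) = false) ≤ 1 / Θ := by
  have hη0 : 0 ≤ η := (dst_nonneg f g).trans hfg
  have h1 := orient_facts hm hΘ hg (hfg.trans (by linarith)) (hrep.toRep hfg hη)
  refine ⟨h1.1, nodup_orient n Θ _, ?_⟩
  intro i hi
  refine (piv_le_cI hg i).trans ?_
  have h2 : |cI g i| < 1 / (Θ : ℝ) * 2 ^ n := by
    by_contra hc
    exact hi (h1.2 i (not_lt.1 hc))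
  rw [div_le_iff₀ (by positivity)]
  exact h2.le

end Pool.Agent.H.MP_cba12a_lc
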