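import Pool.Agent.H.MP_cba12a_lc.X10.Core
import Pool.Agent.H.MP_cba12a_lc.X10.ParK
import Pool.Agent.H.MP_cba12a_lc.P9.LL
import Pool.Agent.H.MP_cba12a_lc.P9.OriL
import Pool.Agent.H.MP_cba12a_lc.Share7Defs

/-!
The learner for unate DNF formulas of which any two terms share at most `t` variables: parameters
and final assembly.
-/

namespace Pool.Agent.H.MP_cba12a_lc

open Pool.Agent.H.MP_5be563_lc.PT

/-- the learner -/
def learn10 (t c0 : ℕ) (q : ℕ × ℕ × Samples) : List (List Lit) :=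
  core10 (2 ^ (cN10 t * LL c0 q.1 q.2.1)) t (t * a0 t) (4 * (t + 1) * LL c0 q.1 q.2.1)
    (2 ^ ((t + 2) * LL c0 q.1 q.2.1)) (2 ^ (cB10 t * LL c0 q.1 q.2.1))
    (2 ^ ((t + 2) * LL c0 q.1 q.2.1)) (2 ^ (cE10 t * LL c0 q.1 q.2.1)) q.1 q.2.2

theorem poly_learn10 (t c0 : ℕ) : Poly (learn10 t c0) := by
  have hN : Poly (fun q : ℕ × ℕ × Samples => 2 ^ (cN10 t * LL c0 q.1 q.2.1)) :=
    poly_two_pow_LL c0 (cN10 t) Poly.fst (by fun_prop)
  have hA : Poly (fun q : ℕ × ℕ × Samples => 2 ^ ((t + 2) * LL c0 q.1 q.2.1)) :=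
    poly_two_pow_LL c0 (t + 2) Poly.fst (by fun_prop)
  have hB : Poly (fun q : ℕ × ℕ × Samples => 2 ^ (cB10 t * LL c0 q.1 q.2.1)) :=
    poly_two_pow_LL c0 (cB10 t) Poly.fst (by fun_prop)
  have hE : Poly (fun q : ℕ × ℕ × Samples => 2 ^ (cE10 t * LL c0 q.1 q.2.1)) :=
    poly_two_pow_LL c0 (cE10 t) Poly.fst (by fun_prop)
  have hT : Poly (fun q : ℕ × ℕ × Samples => 2 ^ ((4 * (t + 1) + t + 2) * LL c0 q.1 q.2.1)) :=
    poly_two_pow_LL c0 (4 * (t + 1) + t + 2) Poly.fst (by fun_prop)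
  have ht : Poly (fun _ : ℕ × ℕ × Samples => t) := MP_5be563_lc.PT.Poly.const t
  have hK : Poly (fun _ : ℕ × ℕ × Samples => t * a0 t) := MP_5be563_lc.PT.Poly.const (t * a0 t)
  have hl : Poly (fun q : ℕ × ℕ × Samples => 4 * (t + 1) * LL c0 q.1 q.2.1) :=
    (MP_5be563_lc.PT.Poly.const (4 * (t + 1))).mul (poly_LL c0 Poly.fst (by fun_prop))
  have hn : Poly (fun q : ℕ × ℕ × Samples => q.1) := Poly.fst
  have hS : Poly (fun q : ℕ × ℕ × Samples => q.2.2) := by fun_prop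
  have hTT : ∀ q : ℕ × ℕ × Samples, 2 ^ (4 * (t + 1) * LL c0 q.1 q.2.1 + t + 2) ≤
      2 ^ ((4 * (t + 1) + t + 2) * LL c0 q.1 q.2.1) := by
    intro q
    refine Nat.pow_le_pow_right (by norm_num) ?_
    have h2 : 1 ≤ LL c0 q.1 q.2.1 := by unfold LL; omega
    generalize LL c0 q.1 q.2.1 = L at h2
    calc 4 * (t + 1) * L + t + 2 ≤ 4 * (t + 1) * L + t * L + 2 * L := by
          have := Nat.le_mul_of_pos_right t h2
          omega
      _ = (4 * (t + 1) + t + 2) * L := by ring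
  exact poly_core10 hN ht hK hl hA hB hA hT hTT hE hn hS

/-- the inverse of the precision -/
def M10 (t c0 n a : ℕ) : ℕ := W10 c0 n a ^ (cE10 t + 7)

open Polynomial in
/-- the polynomial for the number of samples -/
noncomputable def QP10 (t c0 : ℕ) : Polynomial ℕ :=
  4 * (WP10 c0 ^ (cE10 t + 7)) ^ 2 * ((2 * X + 1) * (WP10 c0 ^ cH10 t + 2) + 1 + X)

theorem eval_QP10 (t c0 x : ℕ) : (QP10 t c0).eval x =
    4 * M10 t c0 x x ^ 2 * ((2 * x + 1) * (W10 c0 x x ^ cH10 t + 2) + 1 + x) := by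
  unfold QP10 M10
  rw [← eval_WP10]
  simp

theorem M10_mono {t c0 n a n' a' : ℕ} (hn : n ≤ n') (ha : a ≤ a') :
    M10 t c0 n a ≤ M10 t c0 n' a' := Nat.pow_le_pow_left (W10_mono hn ha) _

/-- Orienting the formula. -/
theorem exists_oriented10 {n t : ℕ} {g : (Fin n → Bool) → Bool} {o : Fin n → Bool} (hg : Up o g)
    (hF : PairDNF t g) : ∃ F : Finset (Finset (Fin n)),
      (∀ x, g x = true ↔ ∃ A ∈ F, On o A x) ∧ Shr t F := by
  classical
  obtain ⟨F, hgF, hsh⟩ := hF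
  obtain ⟨φ, hφ⟩ : ∃ φ : Finset (Fin n × Bool) → Finset (Fin n),
      ∀ T i, i ∈ φ T ↔ ∃ l ∈ T, l.2 = o l.1 ∧ l.1 = i := by
    refine ⟨fun T => (T.filter fun l => l.2 = o l.1).image Prod.fst, fun T i => ?_⟩
    rw [Finset.mem_image]
    constructor
    · rintro ⟨l, hl, rfl⟩
      rw [Finset.mem_filter] at hl
      exact ⟨l, hl.1, hl.2, rfl⟩
    · rintro ⟨l, hl, h1, rfl⟩
      exact ⟨l, Finset.mem_filter.2 ⟨hl, h1⟩, rfl⟩
  refine ⟨(F.filter fun T => ∃ y : Fin n → Bool, ∀ l ∈ T, y l.1 = l.2).image φ, ?_, ?_⟩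
  · intro x
    constructor
    · intro hx
      obtain ⟨T, hT, hs⟩ := (hgF x).1 hx
      refine ⟨φ T, Finset.mem_image_of_mem _ (Finset.mem_filter.2 ⟨hT, x, hs⟩), ?_⟩
      intro i hi
      obtain ⟨l, hl, h1, rfl⟩ := (hφ T i).1 hi
      rw [hs l hl, h1]
    · rintro ⟨A, hA, hon⟩
      obtain ⟨T, hT, rfl⟩ := Finset.mem_image.1 hA
      obtain ⟨hTF, y, hy⟩ := Finset.mem_filter.1 hT
      set y' : Fin n → Bool := fun i => if (∃ l ∈ T, l.1 = i) then y i else x i with hy'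
      have h1 : g y' = true := by
        rw [hgF]
        refine ⟨T, hTF, fun l hl => ?_⟩
        simp only [hy']
        rw [if_pos ⟨l, hl, rfl⟩]
        exact hy l hl
      refine up_le hg h1 fun i => ?_
      by_cases hi : ∃ l ∈ T, l.1 = i
      · obtain ⟨l, hl, rfl⟩ := hi
        have e : y' l.1 = l.2 := by
          simp only [hy']
          rw [if_pos ⟨l, hl, rfl⟩]
          exact hy l hl
        by_cases hor : l.2 = o l.1
        · right
          exact hon l.1 ((hφ T _).2 ⟨l, hl, hor, rfl⟩)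
        · rw [e]
          rcases Bool.eq_or_eq_not (x l.1) (o l.1) with h2 | h2
          · exact Or.inr h2
          · left
            rw [h2]
            rcases Bool.eq_or_eq_not l.2 (o l.1) with h3 | h3
            · exact absurd h3 hor
            · exact h3.symm
      · left
        simp only [hy']
        rw [if_neg hi]
  · intro A hA A' hA' hne
    obtain ⟨T, hT, rfl⟩ := Finset.mem_image.1 hA
    obtain ⟨T', hT', rfl⟩ := Finset.mem_image.1 hA'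
    have hTT : T ≠ T' := fun h => hne (by rw [h])
    refine le_trans (Finset.card_le_card ?_) (hsh T (Finset.mem_filter.1 hT).1 T'
      (Finset.mem_filter.1 hT').1 hTT)
    intro k hk
    rw [Finset.mem_inter] at hk ⊢
    obtain ⟨l, hl, _, h1⟩ := (hφ T k).1 hk.1
    obtain ⟨l', hl', _, h2⟩ := (hφ T' k).1 hk.2
    exact ⟨Finset.mem_image.2 ⟨l, hl, h1⟩, Finset.mem_image.2 ⟨l', hl', h2⟩⟩

/-- The numerical hypotheses hold for all large parameters. -/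
theorem exists_par10 (t : ℕ) (ht : 1 ≤ t) : ∃ c0 : ℕ, ∀ L n a : ℕ, c0 ≤ L → 0 < a →
    n + 1 ≤ 2 ^ L → a ≤ 2 ^ L → ∃ (m0 P' : ℕ) (aa P : ℕ → ℕ) (κ ν M Q Q1 : ℝ),
      Par10 a t n (2 ^ (cN10 t * L)) (4 * (t + 1) * L) (2 ^ ((t + 2) * L)) (2 ^ (cB10 t * L))
        (2 ^ ((t + 2) * L)) (2 ^ (cH10 t * L)) m0 P' aa P ((1 / 2) ^ ((t + 3) * L))
        ((1 / 2) ^ (cE10 t * L)) ((1 / 2) ^ (cE10 t * L)) κ ν M Q Q1 := by
  obtain ⟨c0, h0⟩ := exists_big10 t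
  refine ⟨c0, fun L n a hL ha0 hn ha => ?_⟩
  exact ⟨_, _, _, _, _, _, _, _, _, par10_inst ht (h0 L hL) ha0 hn ha⟩

theorem main10 (t c0 : ℕ) (hc0 : ∀ L n a : ℕ, c0 ≤ L → 0 < a →
    n + 1 ≤ 2 ^ L → a ≤ 2 ^ L → ∃ (m0 P' : ℕ) (aa P : ℕ → ℕ) (κ ν M Q Q1 : ℝ),
      Par10 a t n (2 ^ (cN10 t * L)) (4 * (t + 1) * L) (2 ^ ((t + 2) * L)) (2 ^ (cB10 t * L))
        (2 ^ ((t + 2) * L)) (2 ^ (cH10 t * L)) m0 P' aa P ((1 / 2) ^ ((t + 3) * L))
        ((1 / 2) ^ (cE10 t * L)) ((1 / 2) ^ (cE10 t * L)) κ ν M Q Q1)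
    (n a b m : ℕ) (f g : (Fin n → Bool) → Bool) (ha : 1 ≤ a)
    (hb : 1 ≤ b) (hu : Unate g) (hg : PairDNF t g)
    (hfg : (QP10 t c0).eval (n + a) * (Finset.univ.filter fun x => f x ≠ g x).card ≤ 2 ^ n)
    (hm : (QP10 t c0).eval (n + a + Nat.clog 2 b) ≤ m) :
    (1 - 1 / (b : ℝ)) * ((2 : ℝ) ^ n) ^ m ≤
      ((Finset.univ.filter fun ω : Fin m → Fin n → Bool =>
        err f (learn10 t c0 (n, a, smp f ω)) ≤ 1 / (a : ℝ)).card : ℝ) := by
  classical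
  have ha' : (1 : ℝ) ≤ a := by exact_mod_cast ha
  obtain ⟨L, hL⟩ : ∃ L, L = LL c0 n a := ⟨_, rfl⟩
  have hL1 : 1 ≤ L := by rw [hL]; unfold LL; omega
  have hL0 : c0 ≤ L := by rw [hL]; unfold LL; omega
  have hnL : n + 1 ≤ 2 ^ L := by
    refine (Nat.le_pow_clog (b := 2) (by norm_num) (n + 1)).trans ?_
    refine Nat.pow_le_pow_right (by norm_num) ?_
    rw [hL]; unfold LL; omega
  have haL : a ≤ 2 ^ L := by
    refine (Nat.le_pow_clog (b := 2) (by norm_num) a).trans ?_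
    refine Nat.pow_le_pow_right (by norm_num) ?_
    rw [hL]; unfold LL; omega
  obtain ⟨m0, P', aa, P, κ, ν, Mr, Q, Q1, hP⟩ := hc0 L n a hL0 ha hnL haL
  have hWL : 2 ^ L ≤ W10 c0 n a := by rw [hL]; exact two_pow_LL_le c0 n a ha
  obtain ⟨M, hM⟩ : ∃ M, M = M10 t c0 n a := ⟨_, rfl⟩
  have hW1 : 1 ≤ W10 c0 n a := le_trans Nat.one_le_two_pow hWL
  have hM1 : 1 ≤ M := by rw [hM]; exact Nat.one_le_pow _ _ hW1
  have hML : 2 ^ ((cE10 t + 7) * L) ≤ M := by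
    rw [hM, mul_comm, pow_mul]
    exact Nat.pow_le_pow_left hWL _
  have hHL : 2 ^ (cH10 t * L) ≤ W10 c0 n a ^ cH10 t := by
    rw [mul_comm, pow_mul]
    exact Nat.pow_le_pow_left hWL _
  rw [eval_QP10] at hfg hm
  have hM0' : (0 : ℝ) < M := by exact_mod_cast hM1
  obtain ⟨τ, hτ⟩ : ∃ τ : ℝ, τ = 1 / M := ⟨_, rfl⟩
  have hτ0 : 0 < τ := by rw [hτ]; positivity
  have hm1 : 4 * M ^ 2 * ((2 * n + 1) * (2 ^ (cH10 t * L) + 2) + 1 + Nat.clog 2 b) ≤ m := by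
    refine le_trans ?_ hm
    have h1 : M ≤ M10 t c0 (n + a + Nat.clog 2 b) (n + a + Nat.clog 2 b) := by
      rw [hM]; exact M10_mono (by omega) (by omega)
    refine Nat.mul_le_mul (Nat.mul_le_mul_left _ (Nat.pow_le_pow_left h1 2)) ?_
    have h3 : W10 c0 n a ≤ W10 c0 (n + a + Nat.clog 2 b) (n + a + Nat.clog 2 b) :=
      W10_mono (by omega) (by omega)
    have h4 := hHL.trans (Nat.pow_le_pow_left h3 (cH10 t))
    have h2 : (2 * n + 1) * (2 ^ (cH10 t * L) + 2) ≤ (2 * (n + a + Nat.clog 2 b) + 1) *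
        (W10 c0 (n + a + Nat.clog 2 b) (n + a + Nat.clog 2 b) ^ cH10 t + 2) :=
      Nat.mul_le_mul (by omega) (by omega)
    omega
  have hm0 : 0 < m := by
    have h1 : 0 < 4 * M ^ 2 := by positivity
    have h2 := Nat.mul_pos h1 (show 0 < (2 * n + 1) * (2 ^ (cH10 t * L) + 2) + 1 +
      Nat.clog 2 b by omega)
    omega
  have hdst : dst f g ≤ τ := by
    rw [hτ]
    unfold dst
    rw [div_le_div_iff₀ (by positivity) hM0', one_mul]
    have h1 : M ≤ M10 t c0 (n + a) (n + a) := by rw [hM]; exact M10_mono (by omega) (by omega)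
    have h2 : M ≤ 4 * M10 t c0 (n + a) (n + a) ^ 2 *
        ((2 * (n + a) + 1) * (W10 c0 (n + a) (n + a) ^ cH10 t + 2) + 1 + (n + a)) := by
      calc M ≤ M10 t c0 (n + a) (n + a) := h1
        _ ≤ M10 t c0 (n + a) (n + a) ^ 2 := Nat.le_self_pow (by norm_num) _
        _ ≤ 4 * M10 t c0 (n + a) (n + a) ^ 2 := by omega
        _ ≤ _ := Nat.le_mul_of_pos_right _ (by omega)
    have h3 := (Nat.mul_le_mul_right (Finset.univ.filter fun x => f x ≠ g x).card h2).trans hfg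
    have h4 : (M : ℝ) * ((Finset.univ.filter fun x => f x ≠ g x).card : ℝ) ≤
        2 ^ n := by exact_mod_cast h3
    linarith
  have hmm : (4 : ℝ) * (M : ℝ) ^ 2 * ((2 * n + 1) * (2 ^ (cH10 t * L) + 2) + 1 +
      Nat.clog 2 b) ≤ m := by
    exact_mod_cast hm1
  clear hfg hm
  -- the precision
  have hτE : 128 * τ ≤ (1 / 2) ^ (cE10 t * L) := by
    have h1 : (2 : ℝ) ^ ((cE10 t + 7) * L) ≤ M := by exact_mod_cast hML
    have h2 : (128 : ℝ) * 2 ^ (cE10 t * L) ≤ 2 ^ ((cE10 t + 7) * L) := by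
      have h3 : (128 : ℝ) = 2 ^ 7 := by norm_num
      rw [h3, ← pow_add]
      apply pow_le_pow_right₀ (by norm_num)
      have h4 : (cE10 t + 7) * L = cE10 t * L + 7 * L := by ring
      rw [h4]
      omega
    rw [hτ, one_div_pow, mul_one_div, div_le_div_iff₀ hM0' (by positivity)]
    linarith
  refine rep10_of_large f g (2 ^ (cH10 t * L)) b hb τ hτ0 ?_ hdst ?_ _ ?_
  · rw [hτ, div_le_one hM0']
    exact_mod_cast hM1
  · rw [hτ, one_div_pow, mul_one_div, le_div_iff₀ (by positivity)]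
    refine le_trans (le_of_eq ?_) hmm
    push_cast
    ring
  intro ω hrep
  rw [← mu_errE_eq10]
  obtain ⟨o, ho⟩ := exists_orient hu
  obtain ⟨F, hgF, hF⟩ := exists_oriented10 ho hg
  have hΘ : (1 : ℝ) / ((2 ^ (cE10 t * L) : ℕ) : ℝ) = (1 / 2) ^ (cE10 t * L) := by
    push_cast
    rw [one_div_pow]
  obtain ⟨h1, h2, h3⟩ := ori10 (Θ := 2 ^ (cE10 t * L)) hm0 (by positivity) ho hrep
    (hdst.trans (by linarith)) (by
      have e : (1 : ℝ) / (16 * ((2 ^ (cE10 t * L) : ℕ) : ℝ)) =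
          1 / 16 * (1 / ((2 ^ (cE10 t * L) : ℕ) : ℝ)) := by
        rw [one_div_mul_one_div]
      rw [e, hΘ]
      have h4 : (0 : ℝ) < (1 / 2) ^ (cE10 t * L) := by positivity
      linarith)
  rw [hΘ] at h3
  have hC : Ctx10 t f g o F (orient n (2 ^ (cE10 t * L)) (smp f ω)) ω (2 ^ (cH10 t * L))
      ((1 / 2) ^ (cE10 t * L)) ((1 / 2) ^ (cE10 t * L)) :=
    ⟨hm0, ho, hgF, hF, h1, h2, h3, fun v u R Z H q1 q2 q3 q4 q5 =>
      (hrep v u R Z H q1 q2 q3 q4 q5).trans (by linarith)⟩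
  have hlearn : learn10 t c0 (n, a, smp f ω) = coreV10 (2 ^ (cN10 t * L)) t (t * a0 t)
      (4 * (t + 1) * L) (2 ^ ((t + 2) * L)) (2 ^ (cB10 t * L)) (2 ^ ((t + 2) * L))
      (orient n (2 ^ (cE10 t * L)) (smp f ω)) (smp f ω) := by
    rw [hL]; rfl
  rw [hlearn]
  refine core10_error hC hP (hdst.trans ?_)
  -- `τ ≤ 1 / (2 a)`
  have h5 : (2 * a : ℝ) ≤ M := by
    have h6 : 2 * a ≤ M := by
      refine le_trans ?_ hML
      calc 2 * a ≤ 2 ^ L * 2 ^ L := by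
            have : 2 ≤ 2 ^ L := by
              calc 2 = 2 ^ 1 := by norm_num
                _ ≤ 2 ^ L := Nat.pow_le_pow_right (by norm_num) hL1
            exact Nat.mul_le_mul this haL
        _ = 2 ^ (2 * L) := by rw [← pow_add]; congr 1; ring
        _ ≤ 2 ^ ((cE10 t + 7) * L) :=
            Nat.pow_le_pow_right (by norm_num) (Nat.mul_le_mul_right _ (by omega))
    exact_mod_cast h6
  rw [hτ]
  exact one_div_le_one_div_of_le (by positivity) h5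

theorem PairDNF.mono10 {n t t' : ℕ} {g : (Fin n → Bool) → Bool} (h : PairDNF t g)
    (ht : t ≤ t') : PairDNF t' g := by
  obtain ⟨F, h1, h2⟩ := h
  exact ⟨F, h1, fun T hT T' hT' hne => (h2 T hT T' hT' hne).trans ht⟩

end Pool.Agent.H.MP_cba12a_lc
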