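import Pool.Agent.H.MP_cba12a_lc.X10.AlgD
import Pool.Agent.H.MP_cba12a_lc.Clock6

/-!
The learner `core10` runs in polynomial time; sizes of its lists.
-/

namespace Pool.Agent.H.MP_cba12a_lc

open Pool.Agent.H.MP_5be563_lc.PT

/-! ### Sizes -/

/-- `L` has at most `m` entries, each of length at most `k`, and literals of size at most `s` -/
def Bs (m k s : ℕ) (L : List (List Lit)) : Prop :=
  L.length ≤ m ∧ ∀ C ∈ L, C.length ≤ k ∧ ∀ l ∈ C, sz l ≤ s

theorem Bs.sz_le {m k s : ℕ} {L : List (List Lit)} (h : Bs m k s L) :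
    sz L ≤ m * (k * (s + 1) + 2) + 1 := by
  refine (sz_le_of_forall L (k * (s + 1) + 1) ?_).trans ?_
  · intro C hC
    refine (sz_le_of_forall C s ?_).trans ?_
    · intro l hl
      exact (h.2 C hC).2 l hl
    · have := Nat.mul_le_mul_right (s + 1) (h.2 C hC).1
      omega
  · have := Nat.mul_le_mul_right (k * (s + 1) + 2) h.1
    simpa using this

theorem drop10_sub {B : ℕ} {S : Samples} {h0 : List (List Lit)} {D : List Lit} {l : Lit} :
    (∀ l' ∈ drop10 B S h0 D l, l' ∈ D) ∧ (drop10 B S h0 D l).length ≤ D.length := by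
  unfold drop10
  split_ifs
  · exact ⟨fun l' h => (List.mem_filter.1 h).1, List.length_filter_le _ _⟩
  · exact ⟨fun l' h => h, le_rfl⟩

theorem foldl_drop10_sub {B : ℕ} {S : Samples} {h0 : List (List Lit)} (C : List Lit) :
    ∀ D : List Lit, (∀ l' ∈ C.foldl (drop10 B S h0) D, l' ∈ D) ∧
      (C.foldl (drop10 B S h0) D).length ≤ D.length := by
  induction C with
  | nil => intro D; simp
  | cons l C ih =>
    intro D
    rw [List.foldl_cons]
    have h1 := ih (drop10 B S h0 D l)
    have h2 := drop10_sub (B := B) (S := S) (h0 := h0) (D := D) (l := l)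
    exact ⟨fun l' h => h2.1 l' (h1.1 l' h), h1.2.trans h2.2⟩

theorem min10_sub {B : ℕ} {S : Samples} {h0 : List (List Lit)} {C : List Lit} :
    (∀ l ∈ min10 B S h0 C, l ∈ C) ∧ (min10 B S h0 C).length ≤ C.length :=
  foldl_drop10_sub C C

theorem det10_bd {V : List Lit} {S : Samples} {H : List (List Lit)} {J R : List Lit} :
    (∀ l ∈ det10 V S H J R, l ∈ J ∨ l ∈ R ∨ l ∈ V) ∧
      (det10 V S H J R).length ≤ J.length + R.length + V.length := by
  unfold det10
  constructor
  · intro l hl
    rw [List.mem_append, List.mem_append] at hl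
    rcases hl with h | h | h
    · exact Or.inl h
    · exact Or.inr (Or.inl h)
    · exact Or.inr (Or.inr (List.mem_filter.1 h).1)
  · rw [List.length_append, List.length_append, ← Nat.add_assoc]
    exact Nat.add_le_add_left (List.length_filter_le _ _) _

theorem length_mins10_le {B : ℕ} {S : Samples} {h0 L : List (List Lit)} :
    (mins10 B S h0 L).length ≤ L.length := by
  unfold mins10
  rw [List.length_map]
  exact List.length_filter_le _ _

theorem length_cands10 {N t K : ℕ} {V : List Lit} {S : Samples} {ch H : List (List Lit)} :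
    (cands10 N t K V S ch H).length = (seeds N t V).length * (seeds N K V).length + ch.length := by
  unfold cands10
  rw [List.length_append, List.length_map, List.length_flatMap]
  congr 1
  simp

theorem length_iter_round10 {N t K B : ℕ} {V : List Lit} {S : Samples}
    {ch h0 s0 : List (List Lit)} (j : ℕ) :
    ((round10 N t K B V S ch h0)^[j] s0).length ≤
      s0.length + j * ((N + 1) * (N + 1) + ch.length) := by
  induction j with
  | zero => simp
  | succ j ih =>
    rw [Function.iterate_succ_apply']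
    generalize (round10 N t K B V S ch h0)^[j] s0 = H at ih ⊢
    unfold round10
    rw [List.length_append]
    have h1 := length_mins10_le (B := B) (S := S) (h0 := h0) (L := cands10 N t K V S ch H)
    rw [length_cands10] at h1
    have h2 := Nat.mul_le_mul (bd_seeds N t V).1 (bd_seeds N K V).1
    have h3 : (j + 1) * ((N + 1) * (N + 1) + ch.length) =
      j * ((N + 1) * (N + 1) + ch.length) + ((N + 1) * (N + 1) + ch.length) := by ring
    omega

theorem bd_chainL10 (N D B : ℕ) (V : List Lit) (S : Samples) (h0 : List (List Lit)) (k : ℕ) :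
    Bd (N + 1) k V (chainL10 N D B V S h0 k) := by
  unfold chainL10
  induction k with
  | zero => exact ⟨by simp, by simp⟩
  | succ k ih =>
    rw [Function.iterate_succ_apply']
    generalize (nextC10 N D B V S h0)^[k] [[]] = L at ih ⊢
    unfold nextC10
    split_ifs with h
    · refine ⟨by omega, ?_⟩
      intro C hC
      obtain ⟨U, hU, hC⟩ := List.mem_flatMap.1 hC
      unfold ext10 at hC
      obtain ⟨l, hl, rfl⟩ := List.mem_map.1 hC
      have h1 := ih.2 U hU
      refine ⟨by simpa using h1.1, ?_⟩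
      intro l' hl'
      rcases List.mem_cons.1 hl' with rfl | hl'
      · exact (List.mem_filter.1 hl).1
      · exact h1.2 l' hl'
    · exact ⟨by simp, by simp⟩

theorem length_chains10_le (N t ℓ B : ℕ) (V : List Lit) (S : Samples) (h0 : List (List Lit)) :
    (chains10 N t ℓ B V S h0).length ≤ (ℓ + 1) * ((ℓ + 1) * (N + 1)) := by
  unfold chains10
  rw [List.length_flatMap]
  have h1 : ∀ m, ((List.range (ℓ + 1)).flatMap fun k =>
      chainL10 N (2 ^ (m + t + 2)) B V S h0 k).length ≤ (ℓ + 1) * (N + 1) := by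
    intro m
    rw [List.length_flatMap]
    refine (List.sum_le_card_nsmul _ (N + 1) ?_).trans ?_
    · intro x hx
      obtain ⟨k, _, rfl⟩ := List.mem_map.1 hx
      exact (bd_chainL10 N (2 ^ (m + t + 2)) B V S h0 k).1
    · simp
  refine (List.sum_le_card_nsmul _ ((ℓ + 1) * (N + 1)) ?_).trans ?_
  · intro x hx
    obtain ⟨m, _, rfl⟩ := List.mem_map.1 hx
    exact h1 m
  · simp

theorem bd_small10 (A : ℕ) (S : Samples) (L : List (List Lit)) (j : ℕ) :
    ((smallStep10 A S L)^[j] []).length ≤ j ∧ ∀ C ∈ (smallStep10 A S L)^[j] [], C ∈ L := by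
  induction j with
  | zero => simp
  | succ j ih =>
    rw [Function.iterate_succ_apply']
    generalize (smallStep10 A S L)^[j] [] = h at ih ⊢
    unfold smallStep10
    constructor
    · have h2 : (List.take 1 (L.filter fun C => accS10 A S h C)).length ≤ 1 :=
        List.length_take_le _ _
      rw [List.length_append]
      omega
    · intro C hC
      rcases List.mem_append.1 hC with hC | hC
      · exact (List.mem_filter.1 (List.mem_of_mem_take hC)).1
      · exact ih.2 C hC

theorem length_small10_le (A : ℕ) (S : Samples) (L : List (List Lit)) :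
    (small10 A S L).length ≤ L.length := (bd_small10 A S L L.length).1

theorem small10_sub (A : ℕ) (S : Samples) (L : List (List Lit)) :
    ∀ C ∈ small10 A S L, C ∈ L := (bd_small10 A S L L.length).2

/-- number of terms of the hypothesis after `j` rounds -/
theorem length_round10_le (N t K ℓ A B : ℕ) (V : List Lit) (S : Samples) (j : ℕ) :
    ((round10 N t K B V S (chains10 N t ℓ B V S (small10 A S (seeds N t V)))
      (small10 A S (seeds N t V)))^[j]
      (mins10 B S (small10 A S (seeds N t V))
        (chains10 N t ℓ B V S (small10 A S (seeds N t V))) ++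
        small10 A S (seeds N t V))).length ≤
      (N + 1) + (ℓ + 1) ^ 2 * (N + 1) + j * ((N + 1) ^ 2 + (ℓ + 1) ^ 2 * (N + 1)) := by
  refine (length_iter_round10 j).trans ?_
  rw [List.length_append]
  have h1 := length_mins10_le (B := B) (S := S) (h0 := small10 A S (seeds N t V))
    (L := chains10 N t ℓ B V S (small10 A S (seeds N t V)))
  have h2 := length_chains10_le N t ℓ B V S (small10 A S (seeds N t V))
  have h3 := (length_small10_le A S (seeds N t V)).trans (bd_seeds N t V).1
  have h4 := Nat.mul_le_mul_left j (Nat.add_le_add_left h2 ((N + 1) * (N + 1)))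
  have h5 : (N + 1) + (ℓ + 1) ^ 2 * (N + 1) + j * ((N + 1) ^ 2 + (ℓ + 1) ^ 2 * (N + 1)) =
    (N + 1) + (ℓ + 1) * ((ℓ + 1) * (N + 1)) +
      j * ((N + 1) * (N + 1) + (ℓ + 1) * ((ℓ + 1) * (N + 1))) := by ring
  omega

theorem bs_iter_round10 {N t K B : ℕ} {V : List Lit} {S : Samples}
    {ch h0 s0 : List (List Lit)} {kk s : ℕ} (hN : t ≤ kk) (hK : K ≤ kk)
    (hch : ∀ C ∈ ch, C.length ≤ kk ∧ ∀ l ∈ C, sz l ≤ s) (hV : ∀ l ∈ V, sz l ≤ s)
    (hs0 : ∀ C ∈ s0, C.length ≤ 2 * kk + V.length ∧ ∀ l ∈ C, sz l ≤ s) (j : ℕ) :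
    ∀ C ∈ (round10 N t K B V S ch h0)^[j] s0, C.length ≤ 2 * kk + V.length ∧
      ∀ l ∈ C, sz l ≤ s := by
  induction j with
  | zero => simpa using hs0
  | succ j ih =>
    rw [Function.iterate_succ_apply']
    generalize (round10 N t K B V S ch h0)^[j] s0 = H at ih ⊢
    unfold round10
    intro C hC
    rcases List.mem_append.1 hC with hC | hC
    · unfold mins10 at hC
      obtain ⟨D, hD, rfl⟩ := List.mem_map.1 hC
      have hD := (List.mem_filter.1 hD).1
      have hm := min10_sub (B := B) (S := S) (h0 := h0) (C := D)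
      have hD' : D.length ≤ 2 * kk + V.length ∧ ∀ l ∈ D, sz l ≤ s := by
        unfold cands10 at hD
        rcases List.mem_append.1 hD with hD | hD
        · obtain ⟨J, hJ, hD⟩ := List.mem_flatMap.1 hD
          obtain ⟨R, hR, rfl⟩ := List.mem_map.1 hD
          have hJ' := (bd_seeds N t V).2 J hJ
          have hR' := (bd_seeds N K V).2 R hR
          have hd := det10_bd (V := V) (S := S) (H := H) (J := J) (R := R)
          refine ⟨by omega, ?_⟩
          intro l hl
          rcases hd.1 l hl with h | h | h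
          · exact hV l (hJ'.2 l h)
          · exact hV l (hR'.2 l h)
          · exact hV l h
        · obtain ⟨R, hR, rfl⟩ := List.mem_map.1 hD
          have hR' := hch R hR
          have hd := det10_bd (V := V) (S := S) (H := H) (J := []) (R := R)
          refine ⟨by
            have := hd.2
            simp only [List.length_nil] at this
            omega, ?_⟩
          intro l hl
          rcases hd.1 l hl with h | h | h
          · simp at h
          · exact hR'.2 l h
          · exact hV l h
      exact ⟨hm.2.trans hD'.1, fun l hl => hD'.2 l (hm.1 l hl)⟩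
    · exact ih C hC

/-! ### Polynomial time -/

section poly

variable {α : Type} [Enc α]

@[fun_prop]
theorem poly_cnt10 {S : α → Samples} {R Z : α → List Lit} {h : α → List (List Lit)}
    {v u : α → Bool} (hS : Poly S) (hv : Poly v) (hu : Poly u) (hR : Poly R) (hZ : Poly Z)
    (hh : Poly h) : Poly (fun a => cnt10 (S a) (v a) (u a) (R a) (Z a) (h a)) := by
  unfold cnt10
  fun_prop

@[fun_prop]
theorem poly_strip10 {R : α → List Lit} {h : α → List (List Lit)} (hR : Poly R)
    (hh : Poly h) : Poly (fun a => strip10 (R a) (h a)) := by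
  unfold strip10
  fun_prop

@[fun_prop]
theorem poly_sub10 {C D : α → List Lit} (hC : Poly C) (hD : Poly D) :
    Poly (fun a => sub10 (C a) (D a)) := by
  unfold sub10
  fun_prop

@[fun_prop]
theorem poly_accS10 {A : α → ℕ} {S : α → Samples} {h : α → List (List Lit)}
    {C : α → List Lit} (hA : Poly A) (hS : Poly S) (hh : Poly h) (hC : Poly C) :
    Poly (fun a => accS10 (A a) (S a) (h a) (C a)) := by
  unfold accS10
  fun_prop

@[fun_prop]
theorem poly_smallStep10 {A : α → ℕ} {S : α → Samples} {L h : α → List (List Lit)}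
    (hA : Poly A) (hS : Poly S) (hL : Poly L) (hh : Poly h) :
    Poly (fun a => smallStep10 (A a) (S a) (L a) (h a)) := by
  unfold smallStep10
  fun_prop

@[fun_prop]
theorem poly_small10 {A : α → ℕ} {S : α → Samples} {L : α → List (List Lit)}
    (hA : Poly A) (hS : Poly S) (hL : Poly L) :
    Poly (fun a => small10 (A a) (S a) (L a)) := by
  unfold small10
  refine Poly.iterate (f := fun a h => smallStep10 (A a) (S a) (L a) h)
    (s := fun _ => []) (n := fun a => (L a).length)
    (B := fun a => sz (L a) * (sz (L a) + 1) + 1)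
    (by fun_prop) (by fun_prop) (by fun_prop) ?_ ?_
  · exact (hL.sz_le.mul (hL.sz_le.add (PBdd.const 1))).add (PBdd.const 1)
  · intro a j hj
    have h := bd_small10 (A a) (S a) (L a) j
    refine (sz_le_of_forall _ (sz (L a)) ?_).trans ?_
    · intro C hC
      exact (sz_mem_lt (h.2 C hC)).le
    · have h1 : ((smallStep10 (A a) (S a) (L a))^[j] []).length ≤ sz (L a) := by
        have := h.1
        have := length_lt_sz (L a)
        omega
      have := Nat.mul_le_mul_right (sz (L a) + 1) h1
      have e : (fun h => smallStep10 (A a) (S a) (L a) h) = smallStep10 (A a) (S a) (L a) := rfl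
      rw [e]
      omega

@[fun_prop]
theorem poly_ext10 {D B : α → ℕ} {V : α → List Lit} {S : α → Samples}
    {h0 : α → List (List Lit)} {U : α → List Lit} (hD : Poly D) (hB : Poly B) (hV : Poly V)
    (hS : Poly S) (hh : Poly h0) (hU : Poly U) :
    Poly (fun a => ext10 (D a) (B a) (V a) (S a) (h0 a) (U a)) := by
  unfold ext10
  fun_prop

@[fun_prop]
theorem poly_nextC10 {N D B : α → ℕ} {V : α → List Lit} {S : α → Samples}
    {h0 L : α → List (List Lit)} (hN : Poly N) (hD : Poly D) (hB : Poly B) (hV : Poly V)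
    (hS : Poly S) (hh : Poly h0) (hL : Poly L) :
    Poly (fun a => nextC10 (N a) (D a) (B a) (V a) (S a) (h0 a) (L a)) := by
  unfold nextC10
  fun_prop

@[fun_prop]
theorem poly_chainL10 {N D B k : α → ℕ} {V : α → List Lit} {S : α → Samples}
    {h0 : α → List (List Lit)} (hN : Poly N) (hD : Poly D) (hB : Poly B) (hV : Poly V)
    (hS : Poly S) (hh : Poly h0) (hk : Poly k) :
    Poly (fun a => chainL10 (N a) (D a) (B a) (V a) (S a) (h0 a) (k a)) := by
  unfold chainL10
  refine Poly.iterate (f := fun a L => nextC10 (N a) (D a) (B a) (V a) (S a) (h0 a) L)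
    (s := fun _ => [[]]) (n := k)
    (B := fun a => (sz (N a) + 1) * (sz (k a) * (sz (V a) + 1) + 2) + 1)
    (by fun_prop) (by fun_prop) hk ?_ ?_
  · exact ((hN.sz_le.add (PBdd.const 1)).mul ((hk.sz_le.mul (hV.sz_le.add (PBdd.const 1))).add
      (PBdd.const 2))).add (PBdd.const 1)
  · intro a j hj
    have h := (bd_chainL10 (N a) (D a) (B a) (V a) (S a) (h0 a) j).mono (m' := sz (N a) + 1)
      (k' := sz (k a)) (by simp only [sz_nat]; omega) (by simp only [sz_nat]; omega)
    exact h.sz_le

theorem chains10_eq {N t ℓ B TT : ℕ} {V : List Lit} {S : Samples} {h0 : List (List Lit)}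
    (hT : 2 ^ (ℓ + t + 2) ≤ TT) : chains10 N t ℓ B V S h0 =
      (List.range (ℓ + 1)).flatMap fun m => (List.range (ℓ + 1)).flatMap fun k =>
        chainL10 N (cp 2 TT (m + t + 2)) B V S h0 k := by
  unfold chains10
  refine List.flatMap_congr fun m hm => ?_
  rw [List.mem_range] at hm
  have h1 : 2 ^ (m + t + 2) ≤ TT :=
    (Nat.pow_le_pow_right (by norm_num) (by omega)).trans hT
  have h2 : cp 2 TT (m + t + 2) = 2 ^ (m + t + 2) := by
    unfold cp
    rw [cpStep_iterate 2 TT (by norm_num)]
    unfold trunc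
    rw [if_pos h1]
  rw [h2]

theorem poly_chains10 {N t ℓ B TT : α → ℕ} {V : α → List Lit} {S : α → Samples}
    {h0 : α → List (List Lit)} (hN : Poly N) (ht : Poly t) (hl : Poly ℓ) (hB : Poly B)
    (hT : Poly TT) (hTT : ∀ a, 2 ^ (ℓ a + t a + 2) ≤ TT a) (hV : Poly V) (hS : Poly S)
    (hh : Poly h0) :
    Poly (fun a => chains10 (N a) (t a) (ℓ a) (B a) (V a) (S a) (h0 a)) := by
  have h2 : (fun a => chains10 (N a) (t a) (ℓ a) (B a) (V a) (S a) (h0 a)) = fun a =>
      (List.range (ℓ a + 1)).flatMap fun m => (List.range (ℓ a + 1)).flatMap fun k =>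
        chainL10 (N a) (cp 2 (TT a) (m + t a + 2)) (B a) (V a) (S a) (h0 a) k := by
    funext a
    exact chains10_eq (hTT a)
  rw [h2]
  have h3 : Poly (fun p : α × ℕ => cp 2 (TT p.1) (p.2 + t p.1 + 2)) :=
    poly_cp (by fun_prop) (by fun_prop) (by fun_prop)
  have h4 : Poly (fun q : (α × ℕ) × ℕ => cp 2 (TT q.1.1) (q.1.2 + t q.1.1 + 2)) :=
    h3.comp (g := fun q : (α × ℕ) × ℕ => q.1) (by fun_prop)
  have h5 : Poly (fun q : (α × ℕ) × ℕ => chainL10 (N q.1.1) (cp 2 (TT q.1.1)
      (q.1.2 + t q.1.1 + 2)) (B q.1.1) (V q.1.1) (S q.1.1) (h0 q.1.1) q.2) :=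
    poly_chainL10 (by fun_prop) h4 (by fun_prop) (by fun_prop) (by fun_prop) (by fun_prop)
      (by fun_prop)
  have h6 : Poly (fun p : α × ℕ => (List.range (ℓ p.1 + 1)).flatMap fun k =>
      chainL10 (N p.1) (cp 2 (TT p.1) (p.2 + t p.1 + 2)) (B p.1) (V p.1) (S p.1) (h0 p.1) k) :=
    Poly.flatMap h5 (by fun_prop)
  exact Poly.flatMap h6 (by fun_prop)

@[fun_prop]
theorem poly_ok10 {B : α → ℕ} {S : α → Samples} {h0 : α → List (List Lit)}
    {C : α → List Lit} (hB : Poly B) (hS : Poly S) (hh : Poly h0) (hC : Poly C) :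
    Poly (fun a => ok10 (B a) (S a) (h0 a) (C a)) := by
  unfold ok10
  fun_prop

@[fun_prop]
theorem poly_drop10 {B : α → ℕ} {S : α → Samples} {h0 : α → List (List Lit)}
    {D : α → List Lit} {l : α → Lit} (hB : Poly B) (hS : Poly S) (hh : Poly h0) (hD : Poly D)
    (hl : Poly l) : Poly (fun a => drop10 (B a) (S a) (h0 a) (D a) (l a)) := by
  have h1 : Poly (fun a => (D a).filter fun l' => !(eqL l' (l a))) := by fun_prop
  have h2 : Poly (fun a => cnt (S a) false ((D a).filter fun l' => !(eqL l' (l a))) (h0 a) *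
    B a) := by fun_prop
  unfold drop10
  exact Poly.ite (c := fun a => cnt (S a) false ((D a).filter fun l' => !(eqL l' (l a)))
    (h0 a) * B a ≤ (S a).length) (Poly.natle h2 (by fun_prop)) h1 hD

@[fun_prop]
theorem poly_min10 {B : α → ℕ} {S : α → Samples} {h0 : α → List (List Lit)}
    {C : α → List Lit} (hB : Poly B) (hS : Poly S) (hh : Poly h0) (hC : Poly C) :
    Poly (fun a => min10 (B a) (S a) (h0 a) (C a)) := by
  unfold min10
  refine Poly.foldl (f := fun p : α × List Lit × Lit =>
      drop10 (B p.1) (S p.1) (h0 p.1) p.2.1 p.2.2)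
    (s0 := C) (l := C) (B := fun a => sz (C a) * (sz (C a) + 1) + 1)
    (by fun_prop) hC hC ?_ ?_
  · exact (hC.sz_le.mul (hC.sz_le.add (PBdd.const 1))).add (PBdd.const 1)
  · intro a l₁ l₂ _
    have h1 := foldl_drop10_sub (B := B a) (S := S a) (h0 := h0 a) l₁ (C a)
    have e : (l₁.foldl (fun s b => drop10 (B a) (S a) (h0 a) s b) (C a)) =
      l₁.foldl (drop10 (B a) (S a) (h0 a)) (C a) := rfl
    simp only
    rw [e]
    refine (sz_le_of_forall _ (sz (C a)) ?_).trans ?_
    · intro l hl
      exact (sz_mem_lt (h1.1 l hl)).le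
    · have h2 := h1.2
      have h3 := length_lt_sz (C a)
      have := Nat.mul_le_mul_right (sz (C a) + 1) (h2.trans h3.le)
      omega

@[fun_prop]
theorem poly_mins10 {B : α → ℕ} {S : α → Samples} {h0 L : α → List (List Lit)}
    (hB : Poly B) (hS : Poly S) (hh : Poly h0) (hL : Poly L) :
    Poly (fun a => mins10 (B a) (S a) (h0 a) (L a)) := by
  unfold mins10
  fun_prop

theorem poly_ineq10 {a b c d : α → ℕ} (ha : Poly a) (hb : Poly b) (hc : Poly c) (hd : Poly d) :
    Poly (fun p => decide (4 * a p + b p < c p + 4 * d p)) := by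
  fun_prop

@[fun_prop]
theorem poly_det10 {V : α → List Lit} {S : α → Samples} {H : α → List (List Lit)}
    {J R : α → List Lit} (hV : Poly V) (hS : Poly S) (hh : Poly H) (hJ : Poly J)
    (hR : Poly R) : Poly (fun a => det10 (V a) (S a) (H a) (J a) (R a)) := by
  unfold det10
  have h1 : Poly (fun p : α × Lit => cnt10 (S p.1) true false (R p.1) (neg p.2 :: J p.1)
    (strip10 (R p.1) (H p.1))) := by fun_prop
  have h2 : Poly (fun p : α × Lit => cnt10 (S p.1) true true (R p.1) (J p.1)
    (strip10 (R p.1) (H p.1))) := by fun_prop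
  have h3 : Poly (fun p : α × Lit => cnt10 (S p.1) true false (R p.1) (J p.1)
    (strip10 (R p.1) (H p.1))) := by fun_prop
  have h4 : Poly (fun p : α × Lit => cnt10 (S p.1) true true (R p.1) (neg p.2 :: J p.1)
    (strip10 (R p.1) (H p.1))) := by fun_prop
  have h5 := poly_ineq10 h1 h2 h3 h4
  have h6 : Poly (fun p : α × Lit => !((J p.1 ++ R p.1).any fun l' => l'.1 == p.2.1)) := by
    fun_prop
  have h7 : Poly (fun a => (V a).filter fun l => !((J a ++ R a).any fun l' => l'.1 == l.1) &&
      decide (4 * cnt10 (S a) true false (R a) (neg l :: J a) (strip10 (R a) (H a)) +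
        cnt10 (S a) true true (R a) (J a) (strip10 (R a) (H a)) <
      cnt10 (S a) true false (R a) (J a) (strip10 (R a) (H a)) +
        4 * cnt10 (S a) true true (R a) (neg l :: J a) (strip10 (R a) (H a)))) :=
    Poly.filter (Poly.and h6 h5) hV
  exact hJ.append (hR.append h7)

@[fun_prop]
theorem poly_cands10 {N t K : α → ℕ} {V : α → List Lit} {S : α → Samples}
    {ch H : α → List (List Lit)} (hN : Poly N) (ht : Poly t) (hK : Poly K) (hV : Poly V)
    (hS : Poly S) (hc : Poly ch) (hH : Poly H) :
    Poly (fun a => cands10 (N a) (t a) (K a) (V a) (S a) (ch a) (H a)) := by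
  unfold cands10
  fun_prop

@[fun_prop]
theorem poly_round10 {N t K B : α → ℕ} {V : α → List Lit} {S : α → Samples}
    {ch h0 H : α → List (List Lit)} (hN : Poly N) (ht : Poly t) (hK : Poly K) (hB : Poly B)
    (hV : Poly V) (hS : Poly S) (hc : Poly ch) (hh : Poly h0) (hH : Poly H) :
    Poly (fun a => round10 (N a) (t a) (K a) (B a) (V a) (S a) (ch a) (h0 a) (H a)) := by
  unfold round10
  fun_prop

/-- bound for the size of the hypothesis -/
theorem sz_iter_round10 {N t K B R : ℕ} {V : List Lit} {S : Samples}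
    {ch h0 s0 : List (List Lit)} (j : ℕ) (hj : j ≤ R) :
    sz ((round10 N t K B V S ch h0)^[j] s0) ≤
      (sz s0 + sz R * ((sz N + 1) * (sz N + 1) + sz ch)) *
        ((2 * (sz t + sz K + sz ch + sz s0) + sz V) * ((sz ch + sz V + sz s0) + 1) + 2) + 1 := by
  have h1 := length_iter_round10 (N := N) (t := t) (K := K) (B := B) (V := V) (S := S)
    (ch := ch) (h0 := h0) (s0 := s0) j
  have h2 := bs_iter_round10 (N := N) (t := t) (K := K) (B := B) (V := V) (S := S)
    (ch := ch) (h0 := h0) (s0 := s0) (kk := sz t + sz K + sz ch + sz s0)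
    (s := sz ch + sz V + sz s0) (by simp only [sz_nat]; omega) (by simp only [sz_nat]; omega)
    (by
      intro C hC
      have h3 := sz_mem_lt hC
      have h4 := length_lt_sz C
      refine ⟨by omega, ?_⟩
      intro l hl
      have := sz_mem_lt hl
      omega)
    (by
      intro l hl
      have := sz_mem_lt hl
      omega)
    (by
      intro C hC
      have h3 := sz_mem_lt hC
      have h4 := length_lt_sz C
      refine ⟨by omega, ?_⟩
      intro l hl
      have := sz_mem_lt hl
      omega) j
  have hbs : Bs (sz s0 + sz R * ((sz N + 1) * (sz N + 1) + sz ch))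
      (2 * (sz t + sz K + sz ch + sz s0) + sz V) (sz ch + sz V + sz s0)
      ((round10 N t K B V S ch h0)^[j] s0) := by
    refine ⟨h1.trans ?_, ?_⟩
    · have h3 := length_lt_sz s0
      have h4 := length_lt_sz ch
      refine Nat.add_le_add h3.le (Nat.mul_le_mul ?_ (Nat.add_le_add (Nat.mul_le_mul ?_ ?_)
        h4.le))
      · simp only [sz_nat]; omega
      · simp only [sz_nat]; omega
      · simp only [sz_nat]; omega
    · intro C hC
      have h3 := h2 C hC
      have h4 := length_lt_sz V
      exact ⟨by omega, h3.2⟩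
  exact hbs.sz_le

theorem poly_coreV10 {N t K ℓ A B R0 TT : α → ℕ} {V : α → List Lit} {S : α → Samples}
    (hN : Poly N) (ht : Poly t) (hK : Poly K) (hl : Poly ℓ) (hA : Poly A) (hB : Poly B)
    (hR : Poly R0) (hT : Poly TT) (hTT : ∀ a, 2 ^ (ℓ a + t a + 2) ≤ TT a) (hV : Poly V)
    (hS : Poly S) :
    Poly (fun a => coreV10 (N a) (t a) (K a) (ℓ a) (A a) (B a) (R0 a) (V a) (S a)) := by
  have h0 : Poly (fun a => small10 (A a) (S a) (seeds (N a) (t a) (V a))) := by fun_prop
  have hc : Poly (fun a => chains10 (N a) (t a) (ℓ a) (B a) (V a) (S a)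
      (small10 (A a) (S a) (seeds (N a) (t a) (V a)))) :=
    poly_chains10 hN ht hl hB hT hTT hV hS h0
  have key : ∀ {ch h0 : α → List (List Lit)}, Poly ch → Poly h0 →
      Poly (fun a => (round10 (N a) (t a) (K a) (B a) (V a) (S a) (ch a) (h0 a))^[R0 a]
        (mins10 (B a) (S a) (h0 a) (ch a) ++ h0 a)) := by
    intro ch h0 hch hh0
    have hs : Poly (fun a => mins10 (B a) (S a) (h0 a) (ch a) ++ h0 a) := by fun_prop
    refine Poly.iterate (f := fun a H => round10 (N a) (t a) (K a) (B a) (V a) (S a) (ch a)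
        (h0 a) H) (s := fun a => mins10 (B a) (S a) (h0 a) (ch a) ++ h0 a) (n := R0)
      (B := fun a => (sz (mins10 (B a) (S a) (h0 a) (ch a) ++ h0 a) + sz (R0 a) *
        ((sz (N a) + 1) * (sz (N a) + 1) + sz (ch a))) *
        ((2 * (sz (t a) + sz (K a) + sz (ch a) + sz (mins10 (B a) (S a) (h0 a) (ch a) ++ h0 a)) +
          sz (V a)) * ((sz (ch a) + sz (V a) + sz (mins10 (B a) (S a) (h0 a) (ch a) ++ h0 a)) +
          1) + 2) + 1)
      (by fun_prop) hs hR ?_ ?_
    · have p1 := hs.sz_le
      have p2 := hR.sz_le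
      have p3 := hN.sz_le
      have p4 := hch.sz_le
      have p5 := ht.sz_le
      have p6 := hK.sz_le
      have p7 := hV.sz_le
      exact ((p1.add (p2.mul (((p3.add (PBdd.const 1)).mul (p3.add (PBdd.const 1))).add
        p4))).mul (((((PBdd.const 2).mul (((p5.add p6).add p4).add p1)).add p7).mul
          (((p4.add p7).add p1).add (PBdd.const 1))).add (PBdd.const 2))).add (PBdd.const 1)
    · intro a j hj
      exact sz_iter_round10 j hj
  unfold coreV10
  exact key hc h0

/-- **The learner runs in polynomial time.** -/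
theorem poly_core10 {N t K ℓ A B R0 TT Θ n : α → ℕ} {S : α → Samples}
    (hN : Poly N) (ht : Poly t) (hK : Poly K) (hl : Poly ℓ) (hA : Poly A) (hB : Poly B)
    (hR : Poly R0) (hT : Poly TT) (hTT : ∀ a, 2 ^ (ℓ a + t a + 2) ≤ TT a) (hΘ : Poly Θ)
    (hn : Poly n) (hS : Poly S) :
    Poly (fun a => core10 (N a) (t a) (K a) (ℓ a) (A a) (B a) (R0 a) (Θ a) (n a) (S a)) := by
  unfold core10
  exact poly_coreV10 hN ht hK hl hA hB hR hT hTT (by fun_prop) hS

end poly

end Pool.Agent.H.MP_cba12a_lc
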